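import Pool.Prelude.Def_H_3587d628
import Pool.Agent.Lib.MP_c1785c_lc.S3.Hard3

/-!
Clique planarity with at most `k` clusters is NP-hard already for instances in which every vertex
has at most three inter-cluster edges.
-/

namespace Pool.Agent.Results.MP_c1785c_lc.Subcubic

open Pool.Agent.Lib.MP_c1785c_lc

theorem result (k : ℕ) (hk : 2 ≤ k) :
    ∀ L ∈ N68a2faeb.NP, ∃ f : List Bool → Inst, N68a2faeb.IsPolyTime f ∧
      ∀ x, (f x).Valid k ∧
        (∀ v, {u | (f x).graph.Adj v u ∧ (f x).cl v ≠ (f x).cl u}.ncard ≤ 3) ∧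
        ∀ share : Bool, (L x = true ↔ (f x).CliquePlanar share) :=
  fun _ hL => (S3.hard3 hk hL).imp fun _ h => ⟨h.1.isPolyTime, h.2⟩

end Pool.Agent.Results.MP_c1785c_lc.Subcubic
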